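import Pool.Agent.H4.BS4

set_option maxHeartbeats 400000

namespace Pool.Agent.Results.MP_93c42a_an.Split
open Set Metric Filter Topology

/-- Property (H) of the closed unit ball of `X`. -/
def PropH (X : Type*) [NormedAddCommGroup X] : Prop :=
  ∀ α : ℝ, 0 < α → α < 1 →
    ∃ T : closedBall (0 : X) 1 → closedBall (0 : X) 1,
      (∀ n : ℕ, 1 ≤ n → ∀ x y, ‖(T^[n] x : X) - (T^[n] y : X)‖ ≤ ‖(x : X) - (y : X)‖ ^ α) ∧
      (∀ x, T x ≠ x) ∧ (⨅ x : closedBall (0 : X) 1, ‖(x : X) - (T x : X)‖) = 0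

/-- The quantities whose supremum is the James norm: `k ≥ 1` squared differences along a strictly
increasing sequence of indices. -/
def jamesSet (x : ℕ → ℝ) : Set ℝ :=
  {t | ∃ (p : ℕ → ℕ) (k : ℕ), StrictMono p ∧ 1 ≤ k ∧
    t = Real.sqrt (∑ i ∈ Finset.range k, (x (p i) - x (p (i + 1))) ^ 2)}

/-- The sequences of James's space. -/
def InJames (x : ℕ → ℝ) : Prop := Tendsto x atTop (𝓝 0) ∧ BddAbove (jamesSet x)

variable {X : Type*} [NormedAddCommGroup X] [NormedSpace ℝ X]

theorem of_proj (P : X →L[ℝ] X) (hP : ∀ x, P (P x) = P x)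
    (hY : ¬ FiniteDimensional ℝ (LinearMap.range (P : X →ₗ[ℝ] X)))
    (hZ : ¬ FiniteDimensional ℝ (LinearMap.ker (P : X →ₗ[ℝ] X))) : PropH X := by
  intro α h0 h1
  obtain ⟨T, hb, hh, hf, hd⟩ := Pool.Agent.H4.BS.holder P hP hY hZ α h0 h1
  let S : closedBall (0 : X) 1 → closedBall (0 : X) 1 := fun x =>
    ⟨T x, mem_closedBall_zero_iff.2 (hb _)⟩
  have it : ∀ n x, (S^[n] x : X) = T^[n] x := by
    intro n
    induction n with
    | zero => intro x; rfl
    | succ n ih =>
      intro x
      rw [Function.iterate_succ_apply', Function.iterate_succ_apply', ← ih]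
  refine ⟨S, fun n hn x y => by rw [it, it]; exact hh n hn _ _,
    fun x hx => hf x (congrArg Subtype.val hx), ?_⟩
  haveI : Nonempty (closedBall (0 : X) 1) := ⟨⟨0, by simp⟩⟩
  refine le_antisymm (le_of_forall_pos_le_add fun ε hε => ?_) (le_ciInf fun _ => norm_nonneg _)
  obtain ⟨x, hx, hx'⟩ := hd ε hε
  refine (ciInf_le (f := fun x : closedBall (0 : X) 1 => ‖(x : X) - (S x : X)‖)
    ⟨0, by rintro _ ⟨y, rfl⟩; exact norm_nonneg _⟩
    (⟨x, mem_closedBall_zero_iff.2 hx⟩ : closedBall (0 : X) 1)).trans ?_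
  rw [zero_add]; exact hx'.le

lemma notFD {V : Type*} [AddCommGroup V] [Module ℝ V] (W : Submodule ℝ V) (v : ℕ → V)
    (hv : ∀ n, v n ∈ W) (g : ℕ → V →ₗ[ℝ] ℝ) (hg : ∀ n m, g n (v m) = if n = m then 1 else 0) :
    ¬ FiniteDimensional ℝ W := by
  intro h
  have li : LinearIndependent ℝ (fun n => (⟨v n, hv n⟩ : W)) := by
    refine LinearIndependent.of_comp W.subtype ?_
    refine linearIndependent_iff'.2 fun s c hs i hi => ?_
    have := congrArg (g i) hs
    simp only [map_sum, map_smul, Function.comp, Submodule.subtype_apply, hg, smul_eq_mul, mul_ite,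
      mul_one, mul_zero, map_zero] at this
    rwa [Finset.sum_ite_eq, if_pos hi] at this
  exact Module.Finite.not_linearIndependent_of_infinite _ li

theorem proj_of_uncond [CompleteSpace X] {β : Type*} [Infinite β]
    (b : UnconditionalSchauderBasis β ℝ X) :
    ∃ P : X →L[ℝ] X, (∀ x, P (P x) = P x) ∧
      ¬ FiniteDimensional ℝ (LinearMap.range (P : X →ₗ[ℝ] X)) ∧
      ¬ FiniteDimensional ℝ (LinearMap.ker (P : X →ₗ[ℝ] X)) := by
  classical
  let j : ℕ ↪ β := Infinite.natEmbedding β
  let i : ℕ → β := fun n => j (2 * n)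
  have hi : Function.Injective i := fun n m h => by have := j.injective h; omega
  have sm : ∀ x, Summable fun n => b.coord (i n) x • b (i n) := fun x =>
    (b.expansion x).summable.comp_injective hi
  obtain ⟨C, hC⟩ := b.exists_norm_proj_le
  let φ : X →ₗ[ℝ] X :=
    { toFun := fun x => ∑' n, b.coord (i n) x • b (i n)
      map_add' := fun x y => by
        rw [← (sm x).tsum_add (sm y)]; simp only [map_add, add_smul]
      map_smul' := fun c x => by
        rw [← (sm x).tsum_const_smul]; simp only [map_smul, smul_eq_mul, mul_smul, RingHom.id_apply] }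
  have hφ : ∀ x, ‖φ x‖ ≤ C * ‖x‖ := by
    intro x
    refine le_of_tendsto' (sm x).hasSum.norm fun s => ?_
    have : ∑ n ∈ s, b.coord (i n) x • b (i n) = b.proj (s.image i) x := by
      rw [b.proj_apply, Finset.sum_image fun _ _ _ _ h => hi h]
    rw [this]
    exact ((b.proj _).le_opNorm x).trans (mul_le_mul_of_nonneg_right (hC _) (norm_nonneg _))
  let P : X →L[ℝ] X := φ.mkContinuous C hφ
  have Pe : ∀ n, P (b (i n)) = b (i n) := by
    intro n
    change ∑' m, b.coord (i m) (b (i n)) • b (i m) = _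
    rw [tsum_eq_single n]
    · simp [b.ortho]
    · intro m hm
      rw [b.ortho, Pi.single_eq_of_ne fun h => hm (hi h), zero_smul]
  refine ⟨P, fun x => ?_, ?_, ?_⟩
  · change P (∑' n, b.coord (i n) x • b (i n)) = ∑' n, b.coord (i n) x • b (i n)
    rw [P.map_tsum (sm x)]
    simp only [map_smul, Pe]
  · refine notFD _ (fun n => b (i n)) (fun n => ⟨_, Pe n⟩) (fun n => b.coord (i n)) fun n m => ?_
    simp [b.ortho, Pi.single_apply, hi.eq_iff]
  · refine notFD _ (fun n => b (j (2 * n + 1))) (fun n => ?_) (fun n => b.coord (j (2 * n + 1)))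
      fun n m => ?_
    · change ∑' m, b.coord (i m) (b (j (2 * n + 1))) • b (i m) = 0
      have : ∀ m, b.coord (i m) (b (j (2 * n + 1))) = 0 := fun m => by
        rw [b.ortho, Pi.single_eq_of_ne fun h => by have := j.injective h; omega]
      simp [this]
    · simp [b.ortho, Pi.single_apply]

theorem uncond [CompleteSpace X] (hX : ¬ FiniteDimensional ℝ X) {β : Type*}
    (b : UnconditionalSchauderBasis β ℝ X) : PropH X := by
  have : Infinite β := by
    by_contra h
    have : Finite β := not_infinite_iff_finite.1 h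
    have := Fintype.ofFinite β
    refine hX (Module.Finite.of_surjective (Fintype.linearCombination ℝ b.basis) fun x => ?_)
    refine ⟨fun i => b.coord i x, ?_⟩
    rw [Fintype.linearCombination_apply]
    exact (hasSum_fintype _).unique (b.expansion x)
  obtain ⟨P, h1, h2, h3⟩ := proj_of_uncond b
  exact of_proj P h1 h2 h3

theorem hilbert [CompleteSpace X] {H : Type*} [NormedAddCommGroup H] [InnerProductSpace ℝ H]
    [CompleteSpace H] (hX : ¬ FiniteDimensional ℝ X) (e : X ≃L[ℝ] H) : PropH X := by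
  obtain ⟨w, b, -⟩ := exists_hilbertBasis ℝ H
  let u := b.toUnconditionalSchauderBasis
  refine uncond hX (β := w)
    { basis := fun i => e.symm (u.basis i)
      coord := fun i => (u.coord i).comp (e : X →L[ℝ] H)
      ortho := fun i j => by simpa using u.ortho i j
      expansion := fun x => by
        have := (e.symm : H →L[ℝ] X).hasSum (u.expansion (e x))
        simpa using this }

lemma dedupe (x : ℕ → ℝ) (q : ℕ → ℕ) (hq : Monotone q) (k : ℕ) :
    ∃ (p : ℕ → ℕ) (l : ℕ), StrictMono p ∧ p l = q k ∧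
      ∑ i ∈ Finset.range k, (x (q i) - x (q (i + 1))) ^ 2 =
        ∑ i ∈ Finset.range l, (x (p i) - x (p (i + 1))) ^ 2 := by
  induction k with
  | zero => exact ⟨fun i => q 0 + i, 0, fun a b h => by dsimp only; omega, rfl, rfl⟩
  | succ k ih =>
    obtain ⟨p, l, hp, hl, hs⟩ := ih
    rcases (hq (Nat.le_succ k)).eq_or_lt with h | h
    · refine ⟨p, l, hp, hl.trans h, ?_⟩
      rw [Finset.sum_range_succ, hs, h]; simp
    · refine ⟨fun i => if i ≤ l then p i else q (k + 1) + (i - (l + 1)), l + 1,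
        strictMono_nat_of_lt_succ fun i => ?_, by simp, ?_⟩
      · by_cases h1 : i + 1 ≤ l
        · rw [if_pos (by omega), if_pos h1]; exact hp (Nat.lt_succ_self i)
        by_cases h2 : i = l
        · subst h2; rw [if_pos le_rfl, if_neg h1, hl]; simpa using h
        · rw [if_neg (by omega), if_neg h1]; omega
      · rw [Finset.sum_range_succ, Finset.sum_range_succ, hs]
        congr 1
        · refine Finset.sum_congr rfl fun i hi => ?_
          have := Finset.mem_range.1 hi
          dsimp only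
          rw [if_pos (by omega), if_pos (by omega)]
        · simp [hl]

lemma james_half {x : ℕ → ℝ} (hx : BddAbove (jamesSet x)) :
    ∀ t ∈ jamesSet (fun n => x (2 * (n / 2))), t ≤ sSup (jamesSet x) := by
  rintro _ ⟨p, k, hp, -, rfl⟩
  obtain ⟨p', l, hp', -, hs⟩ := dedupe x (fun i => 2 * (p i / 2))
    (fun a b h => by have := hp.monotone h; dsimp only; omega) k
  rw [hs]
  refine le_trans (Real.sqrt_le_sqrt ?_) (le_csSup hx ⟨p', l + 1, hp', by omega, rfl⟩)
  rw [Finset.sum_range_succ]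
  exact le_add_of_nonneg_right (sq_nonneg _)

lemma james_fin (x : ℕ → ℝ) (M : ℕ) (h1 : ∀ n, |x n| ≤ 1) (h0 : ∀ n, M ≤ n → x n = 0) :
    InJames x := by
  refine ⟨tendsto_atTop_of_eventually_const h0, Real.sqrt (∑ i ∈ Finset.range M, 4), ?_⟩
  rintro _ ⟨p, k, hp, -, rfl⟩
  refine Real.sqrt_le_sqrt ?_
  calc _ ≤ ∑ i ∈ Finset.range (k + M), (x (p i) - x (p (i + 1))) ^ 2 :=
        Finset.sum_le_sum_of_subset_of_nonneg (Finset.range_mono (by omega))
          fun _ _ _ => sq_nonneg _
    _ = ∑ i ∈ Finset.range M, (x (p i) - x (p (i + 1))) ^ 2 := by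
        refine (Finset.sum_subset (Finset.range_mono (by omega)) fun i _ hi => ?_).symm
        have a1 : M ≤ i := by simpa using hi
        have a2 : i ≤ p i := hp.id_le i
        have a3 : i + 1 ≤ p (i + 1) := hp.id_le (i + 1)
        rw [h0 _ (by omega), h0 _ (by omega)]; simp
    _ ≤ _ := Finset.sum_le_sum fun i _ => by
        have a1 := abs_le.1 (h1 (p i))
        have a2 := abs_le.1 (h1 (p (i + 1)))
        nlinarith [a1.1, a1.2, a2.1, a2.2]

theorem james (ι : X →ₗ[ℝ] (ℕ → ℝ)) (hinj : Function.Injective ι)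
    (hr : ∀ x, x ∈ range ι ↔ InJames x) (hn : ∀ v, ‖v‖ = sSup (jamesSet (ι v))) : PropH X := by
  have hD : ∀ v, ∃ w, ι w = fun n => ι v (2 * (n / 2)) := by
    intro v
    have hv := (hr _).1 ⟨v, rfl⟩
    refine (hr _).2 ⟨hv.1.comp ?_, _, james_half hv.2⟩
    refine tendsto_atTop.2 fun b => eventually_atTop.2 ⟨b + 1, fun n hn => by omega⟩
  choose D hD using hD
  let φ : X →ₗ[ℝ] X :=
    { toFun := D
      map_add' := fun x y => hinj (by rw [map_add, hD, hD, hD, map_add]; rfl)
      map_smul' := fun c x => hinj (by rw [map_smul, hD, hD, map_smul]; rfl) }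
  have hφ : ∀ v, ‖φ v‖ ≤ 1 * ‖v‖ := by
    intro v
    rw [one_mul, hn, hn v]
    refine csSup_le ⟨_, id, 1, strictMono_id, le_rfl, rfl⟩ ?_
    change ∀ t ∈ jamesSet (ι (D v)), _
    rw [hD]
    exact james_half ((hr _).1 ⟨v, rfl⟩).2
  have hu : ∀ m : ℕ, ∃ w, ι w = fun n => if n / 2 = m then 1 else 0 := fun m =>
    (hr _).2 (james_fin _ (2 * m + 2) (fun n => by split_ifs <;> simp)
      fun n hn => if_neg (by omega))
  have hz : ∀ m : ℕ, ∃ w, ι w = fun n => if n = 2 * m + 1 then 1 else 0 := fun m =>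
    (hr _).2 (james_fin _ (2 * m + 2) (fun n => by split_ifs <;> simp)
      fun n hn => if_neg (by omega))
  choose u hu using hu
  choose z hz using hz
  refine of_proj (φ.mkContinuous 1 hφ) (fun x => hinj ?_) ?_ ?_
  · change ι (D (D x)) = ι (D x)
    rw [hD, hD]
    funext n
    have : 2 * (2 * (n / 2) / 2) = 2 * (n / 2) := by omega
    simp only [this]
  · refine notFD _ u (fun m => ⟨u m, hinj ?_⟩) (fun n => (LinearMap.proj (2 * n)).comp ι)
      fun n m => ?_
    · change ι (D (u m)) = ι (u m)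
      rw [hD, hu]
      funext n
      simp
    · change ι (u m) (2 * n) = _
      rw [hu]; simp
  · refine notFD _ z (fun m => hinj ?_) (fun n => (LinearMap.proj (2 * n + 1)).comp ι)
      fun n m => ?_
    · change ι (D (z m)) = ι 0
      rw [hD, hz, map_zero]
      funext n
      exact if_neg (by omega)
    · change ι (z m) (2 * n + 1) = _
      rw [hz]; simp

end Pool.Agent.Results.MP_93c42a_an.Split

open Pool.Agent.Results.MP_93c42a_an.Split in
theorem Pool.Agent.Results.MP_93c42a_an.Split.result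
    (X : Type) [NormedAddCommGroup X] [NormedSpace ℝ X] [CompleteSpace X] :
    (∀ P : X →L[ℝ] X, (∀ x, P (P x) = P x) →
      ¬ FiniteDimensional ℝ (LinearMap.range (P : X →ₗ[ℝ] X)) →
      ¬ FiniteDimensional ℝ (LinearMap.ker (P : X →ₗ[ℝ] X)) → PropH X) ∧
    (∀ (H : Type) [NormedAddCommGroup H] [InnerProductSpace ℝ H] [CompleteSpace H],
      ¬ FiniteDimensional ℝ X → Nonempty (X ≃L[ℝ] H) → PropH X) ∧
    (∀ β : Type, ¬ FiniteDimensional ℝ X → Nonempty (UnconditionalSchauderBasis β ℝ X) →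
      PropH X) ∧
    (∀ ι : X →ₗ[ℝ] (ℕ → ℝ), Function.Injective ι → (∀ x, x ∈ Set.range ι ↔ InJames x) →
      (∀ v, ‖v‖ = sSup (jamesSet (ι v))) → PropH X) :=
  ⟨of_proj, fun _ _ _ _ hX ⟨e⟩ => hilbert hX e, fun _ hX ⟨b⟩ => uncond hX b, james⟩
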